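import Pool.Agent.SQD.Stmts

/-!
# Squad SQD, row JAC: the partial sums of the character

Author: helper32.
-/

set_option autoImplicit false

open scoped BigOperators

noncomputable section

namespace Pool.Agent.SQD.H32

theorem chi_period (d m : ℕ) : chi d (m + 4 * d) = chi d m := by
  unfold chi
  have h1 : (m + 4 * d) % 2 = m % 2 := by omega
  rw [h1]
  by_cases h : m % 2 = 0
  · rw [if_pos h, if_pos h]
  · rw [if_neg h, if_neg h]
    have ho : Odd m := Nat.odd_iff.mpr (by omega)
    have ho' : Odd (m + 4 * d) := Nat.odd_iff.mpr (by omega)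
    rw [jacobiSym.mod_right (d : ℤ) ho, jacobiSym.mod_right (d : ℤ) ho']
    have h2 : (m + 4 * d) % (4 * (d : ℤ).natAbs) = m % (4 * (d : ℤ).natAbs) := by
      rw [Int.natAbs_natCast]
      exact Nat.add_mod_right m (4 * d)
    rw [h2]

theorem chi_mod (d m : ℕ) : chi d (m % (4 * d)) = chi d m := by
  have h : ∀ k r : ℕ, chi d (r + (4 * d) * k) = chi d r := by
    intro k
    induction k with
    | zero => intro r; simp
    | succ k ih =>
      intro r
      have e : r + (4 * d) * (k + 1) = (r + (4 * d) * k) + 4 * d := by ring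
      rw [e, chi_period, ih]
  have h2 := h (m / (4 * d)) (m % (4 * d))
  rw [Nat.mod_add_div] at h2
  exact h2.symm

theorem chi_mul (d m n : ℕ) : chi d (m * n) = chi d m * chi d n := by
  unfold chi
  by_cases hm : m % 2 = 0
  · have h1 : (m * n) % 2 = 0 := by rw [Nat.mul_mod, hm]; simp
    rw [if_pos h1, if_pos hm, zero_mul]
  · by_cases hn : n % 2 = 0
    · have h1 : (m * n) % 2 = 0 := by rw [Nat.mul_mod, hn]; simp
      rw [if_pos h1, if_pos hn, mul_zero]
    · have hm1 : m % 2 = 1 := by omega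
      have hn1 : n % 2 = 1 := by omega
      have h1 : (m * n) % 2 = 1 := by rw [Nat.mul_mod, hm1, hn1]
      rw [if_neg (by omega), if_neg hm, if_neg hn]
      have hm0 : NeZero m := ⟨by rintro rfl; simp at hm⟩
      have hn0 : NeZero n := ⟨by rintro rfl; simp at hn⟩
      rw [jacobiSym.mul_right]
      push_cast
      rfl

theorem abs_chi_le (d m : ℕ) : |chi d m| ≤ 1 := by
  unfold chi
  by_cases h : m % 2 = 0
  · rw [if_pos h]; simp
  · rw [if_neg h]
    rcases jacobiSym.trichotomy (d : ℤ) m with h | h | h <;> rw [h] <;> simp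

theorem sum_period (hn : NsqStmt) (d : ℕ) (hd : ¬ IsSquare d) :
    ∑ m ∈ Finset.range (4 * d), chi d m = 0 := by
  obtain ⟨m₀, hm, hj⟩ := hn d hd
  have hd0 : d ≠ 0 := by
    rintro rfl
    exact hd ⟨0, rfl⟩
  have : NeZero (4 * d) := ⟨by omega⟩
  have hchi : chi d m₀ = -1 := by
    unfold chi
    have h2 : ¬ m₀ % 2 = 0 := by
      intro h
      have h3 : 2 ∣ Nat.gcd m₀ (4 * d) := Nat.dvd_gcd (Nat.dvd_of_mod_eq_zero h) ⟨2 * d, by ring⟩
      rw [hm] at h3
      omega
    rw [if_neg h2, hj]
    norm_num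
  have e1 : ∑ m ∈ Finset.range (4 * d), chi d m = ∑ a : ZMod (4 * d), chi d a.val := by
    symm
    apply Finset.sum_bij (fun (a : ZMod (4 * d)) _ => a.val)
    · intro a _
      exact Finset.mem_range.mpr (ZMod.val_lt a)
    · intro a _ b _ h
      exact ZMod.val_injective (4 * d) h
    · intro b hb
      refine ⟨(b : ZMod (4 * d)), Finset.mem_univ _, ?_⟩
      exact ZMod.val_cast_of_lt (Finset.mem_range.mp hb)
    · intro a _
      rfl
  rw [e1]
  set u : (ZMod (4 * d))ˣ := ZMod.unitOfCoprime m₀ hm with hu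
  have e2 : ∑ a : ZMod (4 * d), chi d a.val = ∑ a : ZMod (4 * d), chi d ((u : ZMod (4 * d)) * a).val := by
    symm
    exact Fintype.sum_equiv (Units.mulLeft u) _ _ (fun a => rfl)
  have e3 : ∀ a : ZMod (4 * d), chi d ((u : ZMod (4 * d)) * a).val = - chi d a.val := by
    intro a
    have h1 : ((u : ZMod (4 * d)) * a).val = (m₀ * a.val) % (4 * d) := by
      rw [ZMod.val_mul, hu, ZMod.coe_unitOfCoprime, ZMod.val_natCast]
      exact Nat.mod_mul_mod m₀ a.val (4 * d)
    rw [h1, chi_mod, chi_mul, hchi]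
    ring
  have e4 : ∑ a : ZMod (4 * d), chi d a.val = - ∑ a : ZMod (4 * d), chi d a.val := by
    rw [← Finset.sum_neg_distrib]
    rw [e2]
    exact Finset.sum_congr rfl (fun a _ => e3 a)
  linarith

theorem jac (hn : NsqStmt) : JacStmt := by
  intro d hd M
  have hd0 : d ≠ 0 := by
    rintro rfl
    exact hd ⟨0, rfl⟩
  induction M using Nat.strong_induction_on with
  | _ M ih =>
    by_cases hM : M ≤ 4 * d
    · calc |∑ m ∈ Finset.range M, chi d m| ≤ ∑ m ∈ Finset.range M, |chi d m| :=
            Finset.abs_sum_le_sum_abs _ _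
        _ ≤ ∑ m ∈ Finset.range M, (1 : ℝ) := Finset.sum_le_sum (fun m _ => abs_chi_le d m)
        _ = M := by simp
        _ ≤ 4 * d := by exact_mod_cast hM
    · push Not at hM
      obtain ⟨k, rfl⟩ := Nat.exists_eq_add_of_le hM.le
      have h1 : ∑ m ∈ Finset.range (4 * d + k), chi d m = ∑ m ∈ Finset.range k, chi d m := by
        rw [Finset.sum_range_add, sum_period hn d hd, zero_add]
        refine Finset.sum_congr rfl (fun m _ => ?_)
        rw [add_comm (4 * d) m, chi_period]
      rw [h1]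
      exact ih k (by omega)

end Pool.Agent.SQD.H32
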